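import Mathlib
import Pool.Agent.Helper697.RepDefs
import Pool.Agent.Helper697.RepFinal

/-!
Rep-cubes of every order larger than 287.

`Rep.IsRepCube k P` says that the finite set `P` of unit squares of the integer grid is a
polyomino, folds to a cube, and is the disjoint union of `k` polyominoes each of which folds to
a cube (of its own edge length).
-/

namespace Pool.Agent.Results.MP_ea7ca7_co.RepCubesAllLarge

open Pool.Agent.Helper697.Rep

/-- For every integer `k > 287` there is a rep-cube of order `k`. -/
theorem result : ∀ k : ℕ, 287 < k → ∃ P : Finset (ℤ × ℤ), IsRepCube k P :=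
  fun k hk => rep_cubes k hk

end Pool.Agent.Results.MP_ea7ca7_co.RepCubesAllLarge
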